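import Mathlib
import Pool.Agent.W443.J6.Stms

set_option autoImplicit false

/-! The vertical edge (statement `S_E1` of `Pool.Agent.W443.J6.Stms`). -/

open Polynomial Pool.Agent.W443.J6

namespace Pool.Agent.W319.J6

universe u

section

variable {k : Type u} [Field k]

theorem od_eq (U φ : Polynomial k) (N : ℕ) (h : OD (N : ℤ) 1 U φ) :
    (N : Polynomial k) * U * derivative φ - derivative U * φ = U := by
  unfold OD at h
  simpa using h

variable [CharZero k]

theorem root (U φ : Polynomial k) (N : ℕ) (hU : U ≠ 0)
    (h : (N : Polynomial k) * U * derivative φ - derivative U * φ = U) (y : k)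
    (hy : U.IsRoot y ∨ φ.IsRoot y) :
    φ.IsRoot y ∧ ((N : k) - (U.rootMultiplicity y : k)) * (derivative φ).eval y = 1 := by
  by_cases hUy : U.IsRoot y
  · have hv : 0 < U.rootMultiplicity y := (rootMultiplicity_pos hU).2 hUy
    obtain ⟨w, hw, hw'⟩ := exists_eq_pow_rootMultiplicity_mul_and_not_dvd U hU y
    obtain ⟨n, hn⟩ : ∃ n, U.rootMultiplicity y = n + 1 := ⟨U.rootMultiplicity y - 1, by omega⟩
    have hwy : w.eval y ≠ 0 := fun h0 => hw' (dvd_iff_isRoot.2 h0)
    rw [hn] at hw
    have hX : (X - C y : Polynomial k) ≠ 0 := X_sub_C_ne_zero y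
    have hdU : derivative U = ((n : Polynomial k) + 1) * (X - C y) ^ n * w +
        (X - C y) ^ (n + 1) * derivative w := by
      rw [hw, derivative_mul, derivative_pow, derivative_sub, derivative_X, derivative_C]
      simp
    have h1 : (X - C y) ^ n * ((N : Polynomial k) * (X - C y) * w * derivative φ -
        (((n : Polynomial k) + 1) * w + (X - C y) * derivative w) * φ - (X - C y) * w) = 0 := by
      have h' := h
      rw [hdU] at h'
      have e1 : (X - C y) ^ n * ((N : Polynomial k) * (X - C y) * w * derivative φ -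
        (((n : Polynomial k) + 1) * w + (X - C y) * derivative w) * φ - (X - C y) * w) =
        ((N : Polynomial k) * ((X - C y) ^ (n + 1) * w) * derivative φ -
          (((n : Polynomial k) + 1) * (X - C y) ^ n * w +
        (X - C y) ^ (n + 1) * derivative w) * φ) - (X - C y) ^ (n + 1) * w := by ring
      rw [e1, ← hw, h', sub_self]
    have h2 := (mul_eq_zero.1 h1).resolve_left (pow_ne_zero n hX)
    have h3 : φ.eval y = 0 := by
      have h4 := congrArg (Polynomial.eval y) h2
      simp only [eval_sub, eval_mul, eval_add, eval_natCast, eval_one, eval_X, eval_C, sub_self,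
        mul_zero, zero_mul, add_zero, zero_sub, eval_zero, sub_zero, neg_eq_zero, mul_eq_zero] at h4
      rcases h4 with (h4 | h4) | h4
      · exfalso
        have : ((n + 1 : ℕ) : k) ≠ 0 := Nat.cast_ne_zero.2 (Nat.succ_ne_zero n)
        apply this
        push_cast
        exact h4
      · exact absurd h4 hwy
      · exact h4
    refine ⟨h3, ?_⟩
    obtain ⟨ψ, hψ⟩ := dvd_iff_isRoot.2 h3
    have hdφ : derivative φ = ψ + (X - C y) * derivative ψ := by
      rw [hψ, derivative_mul, derivative_sub, derivative_X, derivative_C]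
      simp
    have h5 : (X - C y) * ((N : Polynomial k) * w * derivative φ -
        ((n : Polynomial k) + 1) * w * ψ - derivative w * φ - w) = 0 := by
      rw [← h2]
      have e2 : ((n : Polynomial k) + 1) * w * φ = ((n : Polynomial k) + 1) * w * ((X - C y) * ψ) := by
        rw [← hψ]
      linear_combination e2
    have h6 := (mul_eq_zero.1 h5).resolve_left hX
    have h7 := congrArg (Polynomial.eval y) h6
    have h8 : (derivative φ).eval y = ψ.eval y := by
      rw [hdφ]; simp
    simp only [eval_sub, eval_mul, eval_add, eval_natCast, eval_one, eval_zero, h3, h8, mul_zero,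
      sub_zero] at h7
    rw [h8, hn]
    have h9 : w.eval y * (((N : k) - ((n + 1 : ℕ) : k)) * ψ.eval y - 1) = 0 := by
      push_cast
      linear_combination h7
    have h10 := (mul_eq_zero.1 h9).resolve_left hwy
    linear_combination h10
  · have hφ : φ.IsRoot y := hy.resolve_left hUy
    refine ⟨hφ, ?_⟩
    have h0 : U.rootMultiplicity y = 0 := rootMultiplicity_eq_zero hUy
    have h1 := congrArg (Polynomial.eval y) h
    have h2 : φ.eval y = 0 := hφ
    simp only [eval_sub, eval_mul, eval_natCast, h2, mul_zero, sub_zero] at h1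
    rw [h0, Nat.cast_zero, sub_zero]
    have h3 : U.eval y * ((N : k) * (derivative φ).eval y - 1) = 0 := by
      linear_combination h1
    have h4 := (mul_eq_zero.1 h3).resolve_left hUy
    linear_combination h4

theorem degs (U φ : Polynomial k) (N : ℕ) (hU : U ≠ 0) (hφ : φ ≠ 0)
    (h : (N : Polynomial k) * U * derivative φ - derivative U * φ = U) (hq : 1 ≤ U.natDegree)
    (he : 2 ≤ φ.natDegree) : U.natDegree = N * φ.natDegree := by
  obtain ⟨q, hq'⟩ : ∃ q, U.natDegree = q + 1 := ⟨U.natDegree - 1, by omega⟩
  obtain ⟨e, he'⟩ : ∃ e, φ.natDegree = e + 2 := ⟨φ.natDegree - 2, by omega⟩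
  have h1 := congrArg (fun p => Polynomial.coeff p (q + 1 + (e + 1))) h
  simp only [coeff_sub] at h1
  have e1 : U.coeff (q + 1 + (e + 1)) = 0 := coeff_eq_zero_of_natDegree_lt (by omega)
  have hd1 : (derivative φ).natDegree ≤ e + 1 := by
    have := natDegree_derivative_le φ
    omega
  have hd2 : (derivative U).natDegree ≤ q := by
    have := natDegree_derivative_le U
    omega
  have e2 : ((N : Polynomial k) * U * derivative φ).coeff (q + 1 + (e + 1)) =
      (N : k) * (U.coeff (q + 1) * (φ.coeff (e + 2) * ((e + 1 : ℕ) + 1))) := by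
    have : (N : Polynomial k) * U * derivative φ = C (N : k) * (U * derivative φ) := by
      rw [map_natCast, mul_assoc]
    rw [this, coeff_C_mul, coeff_mul_add_eq_of_natDegree_le hq'.le hd1, coeff_derivative]
  have e3 : (derivative U * φ).coeff (q + 1 + (e + 1)) =
      (U.coeff (q + 1) * ((q : ℕ) + 1)) * φ.coeff (e + 2) := by
    have : q + 1 + (e + 1) = q + (e + 2) := by ring
    rw [this, coeff_mul_add_eq_of_natDegree_le hd2 he'.le, coeff_derivative]
  rw [e1, e2, e3] at h1
  have hu : U.coeff (q + 1) ≠ 0 := by
    rw [← hq']; exact leadingCoeff_ne_zero.2 hU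
  have hf : φ.coeff (e + 2) ≠ 0 := by
    rw [← he']; exact leadingCoeff_ne_zero.2 hφ
  have h2 : U.coeff (q + 1) * φ.coeff (e + 2) * ((N : k) * ((e : k) + 2) - ((q : k) + 1)) = 0 := by
    push_cast at h1
    linear_combination h1
  have h3 := (mul_eq_zero.1 h2).resolve_left (mul_ne_zero hu hf)
  rw [hq', he']
  have h4 : ((q + 1 : ℕ) : k) = ((N * (e + 2) : ℕ) : k) := by
    push_cast
    linear_combination -h3
  exact_mod_cast h4

end

theorem t_E1 : S_E1.{u} := by
  intro k _ _ _ U φ N hN hU hOD
  have h := od_eq U φ N hOD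
  by_cases hq : U.natDegree = 0
  · exact Or.inl hq
  right
  have hq1 : 1 ≤ U.natDegree := Nat.one_le_iff_ne_zero.2 hq
  have hφ : φ ≠ 0 := by
    rintro rfl
    apply hU
    rw [← h]; simp
  have hr := root U φ N hU h
  classical
  -- the zeros of `φ` are simple
  have hnd : φ.roots.Nodup := by
    rw [Multiset.nodup_iff_count_le_one]
    intro y
    rw [count_roots]
    by_contra hcon
    push Not at hcon
    have h1 := (one_lt_rootMultiplicity_iff_isRoot hφ).1 hcon
    have h2 := (hr y (Or.inr h1.1)).2
    have h3 : (derivative φ).eval y = 0 := h1.2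
    rw [h3, mul_zero] at h2
    exact zero_ne_one h2
  set S := φ.roots.toFinset with hS
  have hcard : S.card = φ.natDegree := by
    rw [hS, Multiset.toFinset_card_of_nodup hnd]
    exact (IsAlgClosed.splits φ).natDegree_eq_card_roots.symm
  have hmem : ∀ y ∈ S, φ.IsRoot y := fun y hy => by
    rw [hS, Multiset.mem_toFinset, mem_roots hφ] at hy
    exact hy
  have hsub : U.roots.toFinset ⊆ S := by
    intro y hy
    rw [Multiset.mem_toFinset, mem_roots hU] at hy
    rw [hS, Multiset.mem_toFinset, mem_roots hφ]
    exact (hr y (Or.inl hy)).1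
  have hsum : ∑ y ∈ S, U.rootMultiplicity y = U.natDegree := by
    rw [(IsAlgClosed.splits U).natDegree_eq_card_roots, ← Multiset.toFinset_sum_count_eq]
    symm
    rw [Finset.sum_subset hsub]
    · exact Finset.sum_congr rfl fun y _ => count_roots U
    · intro y _ hy
      rw [Multiset.mem_toFinset] at hy
      exact Multiset.count_eq_zero.2 hy
  have hne : ∀ y ∈ S, U.rootMultiplicity y ≠ N := by
    intro y hy hc
    have h1 := (hr y (Or.inr (hmem y hy))).2
    rw [hc, sub_self, zero_mul] at h1
    exact zero_ne_one h1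
  have hSne : S.Nonempty := by
    by_contra hcon
    rw [Finset.not_nonempty_iff_eq_empty] at hcon
    rw [hcon, Finset.sum_empty] at hsum
    omega
  have he1 : 1 ≤ φ.natDegree := by
    rw [← hcard]; exact Finset.card_pos.2 hSne
  rcases Nat.lt_or_ge 1 φ.natDegree with he | he
  · left
    by_contra hcon
    push Not at hcon
    have h1 := degs U φ N hU hφ h hq1 he
    have h2 : ∑ y ∈ S, U.rootMultiplicity y < ∑ y ∈ S, N :=
      Finset.sum_lt_sum_of_nonempty hSne fun y hy => lt_of_le_of_ne (hcon y) (hne y hy)
    rw [hsum, Finset.sum_const, hcard, smul_eq_mul, h1, mul_comm] at h2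
    exact lt_irrefl _ h2
  · have he' : S.card = 1 := by omega
    obtain ⟨y, hy⟩ := Finset.card_eq_one.1 he'
    have hvy : U.rootMultiplicity y = U.natDegree := by
      rw [hy, Finset.sum_singleton] at hsum
      exact hsum
    have hyS : y ∈ S := by rw [hy]; exact Finset.mem_singleton_self y
    rcases lt_or_gt_of_ne (hne y hyS) with h1 | h1
    · right
      obtain ⟨w, hw⟩ := pow_rootMultiplicity_dvd U y
      have hw0 : w ≠ 0 := by
        rintro rfl
        apply hU
        rw [hw, mul_zero]
      have hX : (X - C y : Polynomial k) ^ (U.rootMultiplicity y) ≠ 0 :=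
        pow_ne_zero _ (X_sub_C_ne_zero y)
      have hd : w.natDegree = 0 := by
        have h2 := congrArg natDegree hw
        rw [natDegree_mul hX hw0, natDegree_pow, natDegree_X_sub_C, mul_one, hvy] at h2
        omega
      obtain ⟨κ, hκ⟩ := natDegree_eq_zero.1 hd
      refine ⟨y, κ, U.rootMultiplicity y, ?_, by omega, h1, ?_⟩
      · rintro rfl
        apply hw0
        rw [← hκ, C_0]
      · rw [hκ, mul_comm]; exact hw
    · exact Or.inl ⟨y, h1⟩

end Pool.Agent.W319.J6
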